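import Mathlib
import Pool.Agent.H92FC.Fin

/-!
# Lehmer's inequality for polynomials with few complex conjugations

For an irreducible `f ∈ ℤ[X]` let `L` be the field generated by the zeros of `f` in `ℂ`.  An
automorphism `s` of `L` is a *complex conjugation* of `L` if it becomes the complex conjugation
under some embedding of `L` in `ℂ`; these automorphisms form one conjugacy class of the Galois
group of `f`, and there is only one of them exactly when `L` is totally real or a CM field
(the case of Schinzel).  We prove that Lehmer's inequality holds as soon as the number `m` of the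
complex conjugations is at most `c √n / log n`, and that `M(f)` is at least `exp (c n / C (m))`
up to the value `2`.  More generally, `m` may be replaced by the degree of the
field `ℚ(α, conj α)` divided by the number of its embeddings that commute with the complex
conjugation, for any zero `α` of `f` off the unit circle.
-/

set_option autoImplicit false

open Polynomial IntermediateField Module

namespace Pool.Agent.Results.MP_7ab245_nt.FewComplexConjugations

/-- The field generated by the zeros of `f` in `ℂ`. -/
noncomputable def zeroField (f : ℤ[X]) : IntermediateField ℚ ℂ :=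
  adjoin ℚ {z : ℂ | aeval z f = 0}

/-- The number of complex conjugations in the Galois group of `f`: the number of automorphisms `s`
of the field `L` generated by the zeros of `f`, for which there is an embedding `φ` of `L` in `ℂ`
with `φ (s x) = conj (φ x)` for all `x`. -/
noncomputable def numberOfConjugations (f : ℤ[X]) : ℕ :=
  {s : zeroField f ≃ₐ[ℚ] zeroField f |
    ∃ φ : zeroField f →+* ℂ, ∀ x, φ (s x) = starRingEnd ℂ (φ x)}.ncard

/-- The field `ℚ(α, conj α)`. -/
noncomputable def fieldWithConj (α : ℂ) : IntermediateField ℚ ℂ :=
  adjoin ℚ {α, starRingEnd ℂ α}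

/-- The embeddings of `ℚ(α, conj α)` in `ℂ` that commute with the complex conjugation. -/
def commutingEmbeddings (α : ℂ) : Set (fieldWithConj α →+* ℂ) :=
  {φ | ∀ x y : fieldWithConj α, (y : ℂ) = starRingEnd ℂ (x : ℂ) → φ y = starRingEnd ℂ (φ x)}

/-- The degree of `ℚ(α, conj α)` divided by the number of these embeddings. -/
noncomputable def ratio (α : ℂ) : ℝ :=
  (finrank ℚ (fieldWithConj α) : ℝ) / ((commutingEmbeddings α).ncard : ℝ)

/-- **Lehmer's inequality for polynomials with few complex conjugations.** -/
theorem result : ∃ c : ℝ, 0 < c ∧ ∀ f : ℤ[X], Irreducible f →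
    1 < (f.map (Int.castRingHom ℂ)).mahlerMeasure →
    min 2 (Real.exp (c * (f.natDegree : ℝ) / ((numberOfConjugations f : ℝ) ^ 2 *
      (Real.log (2 * (numberOfConjugations f : ℝ))) ^ 2))) ≤
        (f.map (Int.castRingHom ℂ)).mahlerMeasure ∧
    ∀ α : ℂ, aeval α f = 0 → ‖α‖ ≠ 1 →
      min 2 (Real.exp (c * (f.natDegree : ℝ) / (ratio α ^ 2 *
        (Real.log (2 * ratio α)) ^ 2))) ≤ (f.map (Int.castRingHom ℂ)).mahlerMeasure := by
  obtain ⟨c, hc, h⟩ := Pool.Agent.H92FC.final
  refine ⟨c, hc, fun f hf hM => ?_⟩
  obtain ⟨h1, h2⟩ := h f hf hM
  exact ⟨h2, h1⟩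

end Pool.Agent.Results.MP_7ab245_nt.FewComplexConjugations
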