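import Mathlib
import Pool.Agent.Helper692_LM.Final

/-!
# Lehmer's problem for polynomials whose zeros modulo a prime have few `K`-th powers

Let `f` be an irreducible integer polynomial of degree `n` with `M(f) > 1`, let `K ≥ 1`, and let `p`
be a prime number. Suppose that different zeros of `f` have different `K p ^ s`-th powers for all
`s`. Let `c ≥ 1`, let `f ≡ A B (mod p)` with `A`, `B` coprime and `n ≤ c deg A`, and let
* `A` divide `h(X ^ K)` modulo `p` for some monic `h` of degree `d`, or
* `A` be squarefree, and `d` be the number of different `K`-th powers of the zeros of `A` in an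
  algebraic closure of the field with `p` elements.
If `d ≤ c n / log (2n)`, then, with `L = ⌈64 c ^ 6⌉`, `M(f) ≥ min (2, exp (n / (2 K d p ^ L)))`. So
Lehmer's inequality `M(f) ≥ exp (1 / (2 c p ^ L))` holds if `d ≤ c n / log (2n)` and `d ≤ c n / K`.

In words: Lehmer's inequality holds if for a positive proportion of the zeros modulo `p` the number
of their `K`-th powers is smaller than `n` by a factor of order `K`, for some `K` at least of order
`log n`; all the constants are arbitrary. The condition on the powers of the zeros of `f` cannot be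
dropped without proving Lehmer's conjecture: for every integer polynomial `g` the polynomial
`g(X ^ K)` has the same Mahler measure as `g`.

Starting files: `HighRamification` is the case where `K` is a power of `p` next to `log n`. The
theorem `LocalFactors` of MP_dc0c68_nt is the analogous statement with small constants instead of
arbitrary ones: it needs `d K` and `d log n` to be smaller than a small constant times `n`. Here `K`
may be prime to `p` and `f` squarefree modulo `p`, and `d K` and `d log n` only have to be `O(n)`.

Method: the conjugates of `β ^ (p ^ a)`, `β = α ^ K`, `a < L`; by the Frobenius congruence `h` takes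
values divisible by `p` at all of them (at the good ones modulo a place above `p`), so that there are
`L` times as many small values as for `β` alone. The determinant inequality is the one of the
starting file `TH53/HR4.lean`.
-/

set_option autoImplicit false

open Polynomial

namespace Pool.Agent.Results.MP_7ab245_nt.FewPowersModP

/-- the number of different `K`-th powers of the zeros of `A` in an algebraic closure of the field
with `p` elements -/
noncomputable def numPowers (p : ℕ) [Fact p.Prime] (A : (ZMod p)[X]) (K : ℕ) : ℕ :=
  ((fun z : AlgebraicClosure (ZMod p) => z ^ K) ''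
    (A.rootSet (AlgebraicClosure (ZMod p)))).ncard

theorem result (f : ℤ[X]) (hf : Irreducible f)
    (hM : 1 < (f.map (Int.castRingHom ℂ)).mahlerMeasure) (K : ℕ) (hK : 0 < K)
    (p : ℕ) [Fact p.Prime]
    (hnd : ∀ z w : ℂ, aeval z f = 0 → aeval w f = 0 → ∀ s : ℕ,
      z ^ (K * p ^ s) = w ^ (K * p ^ s) → z = w)
    (c : ℝ) (hc : 1 ≤ c) (A B : (ZMod p)[X]) (hAB : f.map (Int.castRingHom (ZMod p)) = A * B)
    (hco : IsCoprime A B) (hA : (f.natDegree : ℝ) ≤ c * A.natDegree) (d : ℕ)
    (hor : (∃ h : ℤ[X], h.Monic ∧ h.natDegree = d ∧
        A ∣ (h.comp (X ^ K)).map (Int.castRingHom (ZMod p))) ∨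
      (Squarefree A ∧ numPowers p A K = d))
    (hd : d * Real.log (2 * f.natDegree) ≤ c * f.natDegree) :
    min 2 (Real.exp (f.natDegree / (2 * K * d * (p : ℝ) ^ ⌈64 * c ^ 6⌉₊))) ≤
        (f.map (Int.castRingHom ℂ)).mahlerMeasure ∧
      ((K : ℝ) * d ≤ c * f.natDegree →
        Real.exp (1 / (2 * c * (p : ℝ) ^ ⌈64 * c ^ 6⌉₊)) ≤
          (f.map (Int.castRingHom ℂ)).mahlerMeasure) := by
  refine Pool.Agent.Helper692_LM.bound_d f hf hM hK Fact.out hnd c hc A B hAB hco hA d ?_ hd
  rcases hor with ⟨h, hhm, hhd, hAh⟩ | ⟨hsq, hdn⟩
  · rw [← expand_eq_comp_X_pow, Polynomial.map_expand] at hAh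
    exact ⟨h, hhm, hAh, hhd.le⟩
  · obtain ⟨h, hhm, hdvd, hdeg⟩ := Pool.Agent.Helper692_LM.exists_int_poly A hsq K
    exact ⟨h, hhm, hdvd, hdn ▸ hdeg⟩

end Pool.Agent.Results.MP_7ab245_nt.FewPowersModP
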