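import Mathlib
import Pool.Agent.Helper168.SV.Gap

/-!
# Lehmer's problem for integer matrices: a bound in terms of the measure of the Gram matrix

For a square integer matrix `A` let `M(A)` be the Mahler measure of its characteristic polynomial, so
that `M(Aᵀ A)` is the product of the numbers `max(1, σ ^ 2)` over the singular values `σ` of `A`.
There is an absolute constant `c > 0` such that `log M(A) ≥ c / (1 + log M(Aᵀ A)) ^ 3` for all integer
matrices `A`, of any size, with an irreducible characteristic polynomial and `M(A) > 1`.

Method.  By the singular value decomposition `A = B + ∑ u_i v_i*` with a contraction `B`, where `i` runs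
over the `r` singular values larger than `1`.  For `z` on the unit circle the matrix `1 - B / z` is
accretive, and for an accretive matrix `T`, a rectangular matrix `W` with `m` columns and a matrix `M`
of norm at most one, `|det (T + W M W*)| ≤ 3 ^ m |det (T + W W*)|`.  So the characteristic polynomial
and its diagonal minors are on the whole unit circle bounded by `2 * 3 ^ (2 r + 1)` times one polynomial
all of whose zeros lie in the unit disc and whose leading coefficient is at most `2 M(Aᵀ A)`.  As
`Aᵀ A` is an integer matrix, the product of the distances to `1` of its eigenvalues other than `1` is at
least `1`, which gives `2 ^ r ≤ M(Aᵀ A)`.  Hence the pair of the characteristic polynomial and a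
minor has height at most `log 12 + 5 log M(Aᵀ A)`, and the bound for pairs of the starting files applies.
-/

set_option autoImplicit false

namespace Pool.Agent.Results.MP_7ab245_nt.GramMeasure

open Polynomial

noncomputable section

/-- The Mahler measure of the characteristic polynomial of an integer matrix. -/
def measure {n : ℕ} (A : Matrix (Fin n) (Fin n) ℤ) : ℝ :=
  (A.charpoly.map (Int.castRingHom ℂ)).mahlerMeasure

/-- Lower bound for the Mahler measure of an integer matrix with irreducible characteristic
polynomial in terms of the Mahler measure of its Gram matrix. -/
theorem result : ∃ c : ℝ, 0 < c ∧ ∀ (n : ℕ) (A : Matrix (Fin n) (Fin n) ℤ),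
    Irreducible A.charpoly → 1 < measure A →
    c / (1 + Real.log (measure (A.transpose * A))) ^ 3 ≤ Real.log (measure A) :=
  Pool.Agent.Helper168.SV.irr_gram

end

end Pool.Agent.Results.MP_7ab245_nt.GramMeasure
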